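import Mathlib
import Pool.Agent.Helper841.VI.Core

set_option autoImplicit false

namespace Pool.Agent.Results.MP_8a50a7_gt.BelowFourteen

/-- `K` is a centrally symmetric convex body in `ℝ³` (compact, convex, nonempty interior, `K = -K`). -/
def IsSymBody (K : Set (Fin 3 → ℝ)) : Prop :=
  IsCompact K ∧ Convex ℝ K ∧ (interior K).Nonempty ∧ ∀ x ∈ K, -x ∈ K

/-- The vertex index of `K`: the infimum of `∑ ‖p_i‖_K` over all finite families `p_1, …, p_N` with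
`K ⊆ conv {p_1, …, p_N}`; `gauge K x = inf {t > 0 : x ∈ t K}` is the norm `‖x‖_K`. -/
noncomputable def vein (K : Set (Fin 3 → ℝ)) : ℝ :=
  sInf {s : ℝ | ∃ (N : ℕ) (p : Fin N → Fin 3 → ℝ),
    K ⊆ convexHull ℝ (Set.range p) ∧ s = ∑ i, gauge K (p i)}

/-- `V₃`, the supremum of the vertex index over all centrally symmetric convex bodies in `ℝ³`. -/
noncomputable def V3 : ℝ := sSup {v : ℝ | ∃ K : Set (Fin 3 → ℝ), IsSymBody K ∧ v = vein K}

/-- `V₃ ≤ 13.92`. More precisely every centrally symmetric convex body `K ⊂ ℝ³` lies in an octahedron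
`conv {±p_1, ±p_2, ±p_3}` with `2 (‖p_1‖_K + ‖p_2‖_K + ‖p_3‖_K) ≤ 13.92`. -/
theorem result :
    (∀ K : Set (Fin 3 → ℝ), IsSymBody K →
      ∃ p : Fin 3 → Fin 3 → ℝ, K ⊆ convexHull ℝ (Set.range p ∪ Set.range (fun i => -p i)) ∧
        2 * ∑ i, gauge K (p i) ≤ 13.92) ∧
    (∀ K : Set (Fin 3 → ℝ), IsSymBody K → vein K ≤ 13.92) ∧
    BddAbove {v : ℝ | ∃ K : Set (Fin 3 → ℝ), IsSymBody K ∧ v = vein K} ∧
    V3 ≤ 13.92 := by
  have h1 : ∀ K : Set (Fin 3 → ℝ), IsSymBody K →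
      ∃ p : Fin 3 → Fin 3 → ℝ, K ⊆ convexHull ℝ (Set.range p ∪ Set.range (fun i => -p i)) ∧
        2 * ∑ i, gauge K (p i) ≤ 13.92 := fun K ⟨a, b, c, d⟩ => VI.core K a b c d
  have h2 : ∀ K : Set (Fin 3 → ℝ), IsSymBody K → vein K ≤ 13.92 := by
    intro K hK
    obtain ⟨p, hp, hle⟩ := h1 K hK
    have hsym := hK.2.2.2
    refine le_trans (csInf_le ⟨0, ?_⟩ ⟨3 + 3, Fin.append p (fun i => -p i), ?_, rfl⟩) ?_
    · rintro s ⟨N, q, -, rfl⟩
      exact Finset.sum_nonneg fun i _ => gauge_nonneg _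
    · refine hp.trans (convexHull_mono ?_)
      rintro x (⟨i, rfl⟩ | ⟨i, rfl⟩)
      · exact ⟨Fin.castAdd 3 i, by simp⟩
      · exact ⟨Fin.natAdd 3 i, Fin.append_right p (fun i => -p i) i⟩
    · rw [Fin.sum_univ_add]
      simp only [Fin.append_left, Fin.append_right, gauge_neg hsym]
      linarith
  refine ⟨h1, h2, ⟨13.92, ?_⟩, ?_⟩
  · rintro v ⟨K, hK, rfl⟩
    exact h2 K hK
  · refine Real.sSup_le ?_ (by norm_num)
    rintro v ⟨K, hK, rfl⟩
    exact h2 K hK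

end Pool.Agent.Results.MP_8a50a7_gt.BelowFourteen
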