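import Mathlib

/-!
# The vertex index in dimension three: `V_3 ≤ 27/2`

For every centrally symmetric convex body `K` in `ℝ³` there are finitely many points whose convex
hull contains `K` and whose `K`-gauges sum to at most `27/2`; hence `vein K ≤ 27/2` and
`V_3 ≤ 27/2` (the bound on record was `18`).

Proof.  Let `Δ` be the maximum of `det (e, f, g)` over `K³` and `D` the maximum of
`det ((a,1), (b,1), (c,1), (d,1))` over `K⁴`, and put `τ = D / Δ`.
* In the basis `e, f, g` every `x ∈ K` has `ℓ¹`-norm at most `τ - 1`, so the octahedron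
  `± (τ-1) e, ± (τ-1) f, ± (τ-1) g` contains `K`; its cost is at most `6 (τ - 1)`.
* The simplex with vertices `a + b + c + d - 3 a, …` contains `K`; its cost is at most `20 - 2 τ`.
One of the two is at most `27/2`.
-/

namespace Pool.Agent.Results.MP_8a50a7_gt.VertexIndexUpper

open Set

/-- Real three-space. -/
abbrev V := Fin 3 → ℝ

/-- A centrally symmetric convex body: a compact convex set with nonempty interior, `K = -K`. -/
def IsSymBody (K : Set V) : Prop :=
  Convex ℝ K ∧ IsCompact K ∧ (interior K).Nonempty ∧ ∀ x ∈ K, -x ∈ K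

/-- The sums `∑ ‖p_i‖_K` over all finite families `p` with `K ⊆ conv {p_i}`. -/
def costs (K : Set V) : Set ℝ :=
  {t | ∃ (N : ℕ) (p : Fin N → V),
    K ⊆ convexHull ℝ (Set.range p) ∧ t = ∑ i, gauge K (p i)}

/-- The vertex index. -/
noncomputable def vein (K : Set V) : ℝ := sInf (costs K)

/-- The supremum of the vertex index over all centrally symmetric convex bodies in `ℝ³`. -/
noncomputable def V3 : ℝ := sSup {v | ∃ K : Set V, IsSymBody K ∧ v = vein K}

/-- Three by three determinant. -/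
def d3 (a b c : V) : ℝ :=
  a 0 * (b 1 * c 2 - b 2 * c 1) - a 1 * (b 0 * c 2 - b 2 * c 0) + a 2 * (b 0 * c 1 - b 1 * c 0)

/-- The determinant of the four vectors `(a,1), (b,1), (c,1), (d,1)`, up to a fixed sign. -/
def d4 (a b c d : V) : ℝ := d3 b c d - d3 a c d + d3 a b d - d3 a b c

lemma cramer3 (a b c x : V) :
    d3 a b c • x = d3 x b c • a + d3 a x c • b + d3 a b x • c := by
  ext i
  fin_cases i <;> simp [d3] <;> ring

lemma rel4 (a b c d : V) :
    d3 b c d • a + (-d3 a c d) • b + d3 a b d • c + (-d3 a b c) • d = 0 := by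
  ext i
  fin_cases i <;> simp [d3] <;> ring

lemma bary_sum (a b c d x : V) :
    d4 x b c d + d4 a x c d + d4 a b x d + d4 a b c x = d4 a b c d := by
  simp only [d4, d3]; ring

lemma bary_eq (a b c d x : V) :
    d4 x b c d • a + d4 a x c d • b + d4 a b x d • c + d4 a b c x • d = d4 a b c d • x := by
  ext i
  fin_cases i <;> simp [d4, d3] <;> ring

lemma d4_signs (e f g x : V) (p q r : ℝ) :
    d4 (p • e) (q • f) (r • g) (-x)
      = -(q * r * d3 x f g + p * r * d3 e x g + p * q * d3 e f x + p * q * r * d3 e f g) := by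
  simp only [d4, d3, Pi.smul_apply, Pi.neg_apply, smul_eq_mul]; ring

lemma d4_signs' (e f g x : V) (p q r : ℝ) :
    d4 (q • f) (p • e) (r • g) (-x)
      = (q * r * d3 x f g + p * r * d3 e x g + p * q * d3 e f x + p * q * r * d3 e f g) := by
  simp only [d4, d3, Pi.smul_apply, Pi.neg_apply, smul_eq_mul]; ring

lemma cont3 : Continuous (fun w : V × V × V => d3 w.1 w.2.1 w.2.2) := by
  unfold d3; fun_prop

lemma cont4 : Continuous (fun w : V × V × V × V => d4 w.1 w.2.1 w.2.2.1 w.2.2.2) := by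
  unfold d4 d3; fun_prop

section body

variable {K : Set V}

lemma zero_mem_interior (hK : IsSymBody K) : (0 : V) ∈ interior K := by
  obtain ⟨hc, -, ⟨x, hx⟩, hs⟩ := hK
  have hneg : -x ∈ interior K := by
    have h1 : -(interior K) ⊆ interior K := by
      apply interior_maximal
      · intro y hy
        have : -y ∈ K := interior_subset (by simpa using hy)
        simpa using hs _ this
      · exact isOpen_interior.neg
    exact h1 (by simpa using hx)
  have := hc.interior hx hneg (a := 1/2) (b := 1/2) (by norm_num) (by norm_num) (by norm_num)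
  simpa using this

lemma absorbent (hK : IsSymBody K) : Absorbent ℝ K :=
  absorbent_nhds_zero (mem_interior_iff_mem_nhds.1 (zero_mem_interior hK))

lemma gauge_smul_le (hK : IsSymBody K) {a : V} (ha : a ∈ K) (t : ℝ) :
    gauge K (t • a) ≤ |t| := by
  have h1 : gauge K a ≤ 1 := gauge_le_one_of_mem ha
  rcases le_total 0 t with ht | ht
  · rw [gauge_smul_of_nonneg ht, abs_of_nonneg ht, smul_eq_mul]
    nlinarith
  · have h2 : t • a = -((-t) • a) := by simp
    rw [h2, gauge_neg hK.2.2.2, gauge_smul_of_nonneg (by linarith), abs_of_nonpos ht,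
      smul_eq_mul]
    nlinarith

lemma gauge_comb (hK : IsSymBody K) {a b c d : V} (ha : a ∈ K) (hb : b ∈ K) (hc : c ∈ K)
    (hd : d ∈ K) (p q r s : ℝ) :
    gauge K (p • a + q • b + r • c + s • d) ≤ |p| + |q| + |r| + |s| := by
  have h1 := gauge_add_le hK.1 (absorbent hK) (p • a + q • b + r • c) (s • d)
  have h2 := gauge_add_le hK.1 (absorbent hK) (p • a + q • b) (r • c)
  have h3 := gauge_add_le hK.1 (absorbent hK) (p • a) (q • b)
  have g1 := gauge_smul_le hK ha p
  have g2 := gauge_smul_le hK hb q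
  have g3 := gauge_smul_le hK hc r
  have g4 := gauge_smul_le hK hd s
  linarith

/-- The octahedral cover. -/
lemma octa (hK : IsSymBody K) {e f g : V} (he : e ∈ K) (hf : f ∈ K) (hg : g ∈ K) {s : ℝ}
    (hs : 0 < s)
    (h : ∀ x ∈ K, ∃ α β γ : ℝ, x = α • e + β • f + γ • g ∧ |α| + |β| + |γ| ≤ s) :
    ∃ p : Fin 6 → V, K ⊆ convexHull ℝ (Set.range p) ∧ ∑ i, gauge K (p i) ≤ 6 * s := by
  refine ⟨![s • e, (-s) • e, s • f, (-s) • f, s • g, (-s) • g], ?_, ?_⟩
  · intro x hx
    obtain ⟨α, β, γ, hxe, hle⟩ := h x hx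
    set r : ℝ := (1 - (|α| + |β| + |γ|) / s) / 6 with hr
    have hr0 : 0 ≤ r := by
      have : (|α| + |β| + |γ|) / s ≤ 1 := by rw [div_le_one hs]; exact hle
      rw [hr]; linarith
    have hw : ∀ t : ℝ, 0 ≤ (|t| + t) / (2 * s) + r ∧ 0 ≤ (|t| - t) / (2 * s) + r := by
      intro t
      have h1 : 0 ≤ (|t| + t) / (2 * s) := by
        apply div_nonneg _ (by linarith)
        linarith [neg_abs_le t]
      have h2 : 0 ≤ (|t| - t) / (2 * s) := by
        apply div_nonneg _ (by linarith)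
        linarith [le_abs_self t]
      exact ⟨by linarith, by linarith⟩
    set p : Fin 6 → V := ![s • e, (-s) • e, s • f, (-s) • f, s • g, (-s) • g] with hp
    let w : Fin 6 → ℝ := ![(|α| + α) / (2 * s) + r, (|α| - α) / (2 * s) + r,
      (|β| + β) / (2 * s) + r, (|β| - β) / (2 * s) + r,
      (|γ| + γ) / (2 * s) + r, (|γ| - γ) / (2 * s) + r]
    have hmem := (convex_convexHull ℝ (Set.range p)).sum_mem (t := Finset.univ) (w := w) (z := p)
      (by
        intro i _
        fin_cases i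
        · exact (hw α).1
        · exact (hw α).2
        · exact (hw β).1
        · exact (hw β).2
        · exact (hw γ).1
        · exact (hw γ).2)
      (by
        rw [Fin.sum_univ_six]
        change ((|α| + α) / (2 * s) + r) + ((|α| - α) / (2 * s) + r) +
          ((|β| + β) / (2 * s) + r) + ((|β| - β) / (2 * s) + r) +
          ((|γ| + γ) / (2 * s) + r) + ((|γ| - γ) / (2 * s) + r) = 1
        rw [hr]; field_simp; ring)
      (fun i _ => subset_convexHull ℝ _ (Set.mem_range_self i))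
    have hsum : ∑ i, w i • p i = x := by
      rw [Fin.sum_univ_six]
      change ((|α| + α) / (2 * s) + r) • (s • e) + ((|α| - α) / (2 * s) + r) • ((-s) • e) +
          ((|β| + β) / (2 * s) + r) • (s • f) + ((|β| - β) / (2 * s) + r) • ((-s) • f) +
          ((|γ| + γ) / (2 * s) + r) • (s • g) + ((|γ| - γ) / (2 * s) + r) • ((-s) • g) = x
      rw [hxe]
      ext i
      simp only [Pi.add_apply, Pi.smul_apply, smul_eq_mul]
      field_simp
      ring
    rw [hsum] at hmem
    exact hmem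
  · rw [Fin.sum_univ_six]
    change gauge K (s • e) + gauge K ((-s) • e) + gauge K (s • f) + gauge K ((-s) • f) +
      gauge K (s • g) + gauge K ((-s) • g) ≤ 6 * s
    have h1 := gauge_smul_le hK he s
    have h2 := gauge_smul_le hK he (-s)
    have h3 := gauge_smul_le hK hf s
    have h4 := gauge_smul_le hK hf (-s)
    have h5 := gauge_smul_le hK hg s
    have h6 := gauge_smul_le hK hg (-s)
    rw [abs_neg] at h2 h4 h6
    rw [abs_of_pos hs] at *
    linarith

/-- The simplex cover. -/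
lemma simplex (hK : IsSymBody K) {a b c d : V} (ha : a ∈ K) (hb : b ∈ K) (hc : c ∈ K)
    (hd : d ∈ K) {D τ : ℝ} (hD : 0 < D) (hDe : d4 a b c d = D)
    (hmax : ∀ x ∈ K, d4 x b c d ≤ D ∧ d4 a x c d ≤ D ∧ d4 a b x d ≤ D ∧ d4 a b c x ≤ D)
    {l1 l2 l3 l4 : ℝ} (e1 : D * l1 = d3 b c d) (e2 : D * l2 = -d3 a c d)
    (e3 : D * l3 = d3 a b d) (e4 : D * l4 = -d3 a b c)
    (p1 : 0 ≤ l1) (p2 : 0 ≤ l2) (p3 : 0 ≤ l3) (p4 : 0 ≤ l4) (hτ : 0 ≤ τ)
    (q1 : τ * l1 ≤ 1) (q2 : τ * l2 ≤ 1) (q3 : τ * l3 ≤ 1) (q4 : τ * l4 ≤ 1) :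
    ∃ p : Fin 4 → V, K ⊆ convexHull ℝ (Set.range p) ∧ ∑ i, gauge K (p i) ≤ 20 - 2 * τ := by
  have hsum : l1 + l2 + l3 + l4 = 1 := by
    have : D * (l1 + l2 + l3 + l4) = D * 1 := by
      have h := hDe
      simp only [d4] at h
      linarith
    exact mul_left_cancel₀ hD.ne' this
  have hrel : l1 • a + l2 • b + l3 • c + l4 • d = 0 := by
    have h := rel4 a b c d
    rw [← e1, ← e2, ← e3, ← e4] at h
    have h' : D • (l1 • a + l2 • b + l3 • c + l4 • d) = 0 := by
      rw [← h]; simp only [smul_add, smul_smul]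
    exact (smul_eq_zero.1 h').resolve_left hD.ne'
  set p : Fin 4 → V := ![b + c + d - (2 : ℝ) • a, a + c + d - (2 : ℝ) • b,
    a + b + d - (2 : ℝ) • c, a + b + c - (2 : ℝ) • d] with hp
  refine ⟨p, ?_, ?_⟩
  · intro x hx
    obtain ⟨m1, m2, m3, m4⟩ := hmax x hx
    have hb1 := bary_sum a b c d x
    have hb2 := bary_eq a b c d x
    rw [hDe] at hb1 hb2
    let w : Fin 4 → ℝ := ![(1 - d4 x b c d / D) / 3, (1 - d4 a x c d / D) / 3,
      (1 - d4 a b x d / D) / 3, (1 - d4 a b c x / D) / 3]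
    have hw : ∀ t : ℝ, t ≤ D → 0 ≤ (1 - t / D) / 3 := by
      intro t ht
      have : t / D ≤ 1 := by rw [div_le_one hD]; exact ht
      linarith
    have hmem := (convex_convexHull ℝ (Set.range p)).sum_mem (t := Finset.univ) (w := w) (z := p)
      (by
        intro i _
        fin_cases i
        · exact hw _ m1
        · exact hw _ m2
        · exact hw _ m3
        · exact hw _ m4)
      (by
        rw [Fin.sum_univ_four]
        change (1 - d4 x b c d / D) / 3 + (1 - d4 a x c d / D) / 3 +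
          (1 - d4 a b x d / D) / 3 + (1 - d4 a b c x / D) / 3 = 1
        have : (d4 x b c d + d4 a x c d + d4 a b x d + d4 a b c x) / D = 1 := by
          rw [hb1]; exact div_self hD.ne'
        have h2 : d4 x b c d / D + d4 a x c d / D + d4 a b x d / D + d4 a b c x / D = 1 := by
          rw [← this]; ring
        linarith)
      (fun i _ => subset_convexHull ℝ _ (Set.mem_range_self i))
    have hs : ∑ i, w i • p i = x := by
      have hx' : x = D⁻¹ • (d4 x b c d • a + d4 a x c d • b + d4 a b x d • c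
          + d4 a b c x • d) := by
        rw [hb2, smul_smul, inv_mul_cancel₀ hD.ne', one_smul]
      have h2 : d4 x b c d / D + d4 a x c d / D + d4 a b x d / D + d4 a b c x / D = 1 := by
        have : (d4 x b c d + d4 a x c d + d4 a b x d + d4 a b c x) / D = 1 := by
          rw [hb1]; exact div_self hD.ne'
        rw [← this]; ring
      rw [Fin.sum_univ_four]
      change ((1 - d4 x b c d / D) / 3) • (b + c + d - (2 : ℝ) • a) +
        ((1 - d4 a x c d / D) / 3) • (a + c + d - (2 : ℝ) • b) +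
        ((1 - d4 a b x d / D) / 3) • (a + b + d - (2 : ℝ) • c) +
        ((1 - d4 a b c x / D) / 3) • (a + b + c - (2 : ℝ) • d) = x
      generalize d4 x b c d = t1 at *
      generalize d4 a x c d = t2 at *
      generalize d4 a b x d = t3 at *
      generalize d4 a b c x = t4 at *
      have hx'' : x = (t1 / D) • a + (t2 / D) • b + (t3 / D) • c + (t4 / D) • d := by
        rw [hx']
        ext i
        simp only [Pi.add_apply, Pi.smul_apply, smul_eq_mul]
        field_simp
      rw [hx'']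
      generalize t1 / D = u1 at *
      generalize t2 / D = u2 at *
      generalize t3 / D = u3 at *
      generalize t4 / D = u4 at *
      have h4 : u4 = 1 - u1 - u2 - u3 := by linarith
      rw [h4]
      ext i
      simp only [Pi.add_apply, Pi.sub_apply, Pi.smul_apply, smul_eq_mul]
      ring
    rw [hs] at hmem
    exact hmem
  · rw [Fin.sum_univ_four]
    change gauge K (b + c + d - (2 : ℝ) • a) + gauge K (a + c + d - (2 : ℝ) • b) +
      gauge K (a + b + d - (2 : ℝ) • c) + gauge K (a + b + c - (2 : ℝ) • d) ≤ 20 - 2 * τ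
    have r1 : b + c + d - (2 : ℝ) • a = (-(2 + τ * l1)) • a + (1 - τ * l2) • b
        + (1 - τ * l3) • c + (1 - τ * l4) • d := by
      have : b + c + d - (2 : ℝ) • a = (b + c + d - (2 : ℝ) • a)
        - τ • (l1 • a + l2 • b + l3 • c + l4 • d) := by rw [hrel]; simp
      rw [this]; module
    have r2 : a + c + d - (2 : ℝ) • b = (1 - τ * l1) • a + (-(2 + τ * l2)) • b
        + (1 - τ * l3) • c + (1 - τ * l4) • d := by
      have : a + c + d - (2 : ℝ) • b = (a + c + d - (2 : ℝ) • b)
        - τ • (l1 • a + l2 • b + l3 • c + l4 • d) := by rw [hrel]; simp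
      rw [this]; module
    have r3 : a + b + d - (2 : ℝ) • c = (1 - τ * l1) • a + (1 - τ * l2) • b
        + (-(2 + τ * l3)) • c + (1 - τ * l4) • d := by
      have : a + b + d - (2 : ℝ) • c = (a + b + d - (2 : ℝ) • c)
        - τ • (l1 • a + l2 • b + l3 • c + l4 • d) := by rw [hrel]; simp
      rw [this]; module
    have r4 : a + b + c - (2 : ℝ) • d = (1 - τ * l1) • a + (1 - τ * l2) • b
        + (1 - τ * l3) • c + (-(2 + τ * l4)) • d := by
      have : a + b + c - (2 : ℝ) • d = (a + b + c - (2 : ℝ) • d)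
        - τ • (l1 • a + l2 • b + l3 • c + l4 • d) := by rw [hrel]; simp
      rw [this]; module
    have g1 := gauge_comb hK ha hb hc hd (-(2 + τ * l1)) (1 - τ * l2) (1 - τ * l3) (1 - τ * l4)
    have g2 := gauge_comb hK ha hb hc hd (1 - τ * l1) (-(2 + τ * l2)) (1 - τ * l3) (1 - τ * l4)
    have g3 := gauge_comb hK ha hb hc hd (1 - τ * l1) (1 - τ * l2) (-(2 + τ * l3)) (1 - τ * l4)
    have g4 := gauge_comb hK ha hb hc hd (1 - τ * l1) (1 - τ * l2) (1 - τ * l3) (-(2 + τ * l4))
    rw [← r1] at g1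
    rw [← r2] at g2
    rw [← r3] at g3
    rw [← r4] at g4
    have n1 : 0 ≤ τ * l1 := mul_nonneg hτ p1
    have n2 : 0 ≤ τ * l2 := mul_nonneg hτ p2
    have n3 : 0 ≤ τ * l3 := mul_nonneg hτ p3
    have n4 : 0 ≤ τ * l4 := mul_nonneg hτ p4
    have a1 : |(-(2 + τ * l1))| = 2 + τ * l1 := by rw [abs_neg, abs_of_nonneg (by linarith)]
    have a2 : |(-(2 + τ * l2))| = 2 + τ * l2 := by rw [abs_neg, abs_of_nonneg (by linarith)]
    have a3 : |(-(2 + τ * l3))| = 2 + τ * l3 := by rw [abs_neg, abs_of_nonneg (by linarith)]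
    have a4 : |(-(2 + τ * l4))| = 2 + τ * l4 := by rw [abs_neg, abs_of_nonneg (by linarith)]
    have b1 : |1 - τ * l1| = 1 - τ * l1 := abs_of_nonneg (by linarith)
    have b2 : |1 - τ * l2| = 1 - τ * l2 := abs_of_nonneg (by linarith)
    have b3 : |1 - τ * l3| = 1 - τ * l3 := abs_of_nonneg (by linarith)
    have b4 : |1 - τ * l4| = 1 - τ * l4 := abs_of_nonneg (by linarith)
    rw [a1, b2, b3, b4] at g1
    rw [b1, a2, b3, b4] at g2
    rw [b1, b2, a3, b4] at g3
    rw [b1, b2, b3, a4] at g4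
    have ht : τ * l1 + τ * l2 + τ * l3 + τ * l4 = τ := by
      rw [← mul_add, ← mul_add, ← mul_add, hsum, mul_one]
    linarith

lemma d4_ge (hK : IsSymBody K) {D : ℝ}
    (hD : ∀ a ∈ K, ∀ b ∈ K, ∀ c ∈ K, ∀ d ∈ K, d4 a b c d ≤ D)
    {e f g x : V} (he : e ∈ K) (hf : f ∈ K) (hg : g ∈ K) (hx : x ∈ K) :
    d3 e f g + |d3 x f g| + |d3 e x g| + |d3 e f x| ≤ D := by
  have hmem : ∀ p : ℝ, (p = 1 ∨ p = -1) → ∀ y ∈ K, p • y ∈ K := by
    rintro p (rfl | rfl) y hy
    · simpa using hy
    · simpa using hK.2.2.2 y hy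
  have habs : ∀ t : ℝ, ∃ p : ℝ, (p = 1 ∨ p = -1) ∧ |t| = p * t := by
    intro t
    rcases le_total 0 t with h | h
    · exact ⟨1, Or.inl rfl, by rw [abs_of_nonneg h, one_mul]⟩
    · exact ⟨-1, Or.inr rfl, by rw [abs_of_nonpos h]; ring⟩
  obtain ⟨p, hp, hpX⟩ := habs (d3 x f g)
  obtain ⟨q, hq, hqY⟩ := habs (d3 e x g)
  obtain ⟨r, hr, hrZ⟩ := habs (d3 e f x)
  have h1 := hD _ (hmem p hp e he) _ (hmem q hq f hf) _ (hmem r hr g hg) _ (hK.2.2.2 x hx)
  have h2 := hD _ (hmem q hq f hf) _ (hmem p hp e he) _ (hmem r hr g hg) _ (hK.2.2.2 x hx)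
  rw [d4_signs] at h1
  rw [d4_signs'] at h2
  rw [hpX, hqY, hrZ]
  rcases hp with rfl | rfl <;> rcases hq with rfl | rfl <;> rcases hr with rfl | rfl <;>
    linarith

/-- The main estimate: some finite family has hull containing `K` and cost at most `27/2`. -/
theorem exists_cover (hK : IsSymBody K) :
    ∃ (N : ℕ) (p : Fin N → V), K ⊆ convexHull ℝ (Set.range p) ∧
      ∑ i, gauge K (p i) ≤ 27 / 2 := by
  have h0 := zero_mem_interior hK
  have h0K : (0 : V) ∈ K := interior_subset h0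
  have hne : K.Nonempty := ⟨0, h0K⟩
  have hcpt := hK.2.1
  -- the two maxima
  obtain ⟨⟨e, f, g⟩, hefg, hmax3⟩ :=
    (hcpt.prod (hcpt.prod hcpt)).exists_isMaxOn (hne.prod (hne.prod hne)) cont3.continuousOn
  obtain ⟨⟨a, b, c, d⟩, habcd, hmax4⟩ :=
    (hcpt.prod (hcpt.prod (hcpt.prod hcpt))).exists_isMaxOn
      (hne.prod (hne.prod (hne.prod hne))) cont4.continuousOn
  obtain ⟨he, hf, hg⟩ := hefg
  obtain ⟨ha, hb, hc, hd⟩ := habcd
  simp only at he hf hg ha hb hc hd
  set Δ := d3 e f g with hΔ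
  set D := d4 a b c d with hDdef
  have M3 : ∀ x ∈ K, ∀ y ∈ K, ∀ z ∈ K, d3 x y z ≤ Δ := by
    intro x hx y hy z hz
    exact hmax3 (show (x, y, z) ∈ K ×ˢ K ×ˢ K from ⟨hx, hy, hz⟩)
  have M4 : ∀ x ∈ K, ∀ y ∈ K, ∀ z ∈ K, ∀ w ∈ K, d4 x y z w ≤ D := by
    intro x hx y hy z hz w hw
    exact hmax4 (show (x, y, z, w) ∈ K ×ˢ K ×ˢ K ×ˢ K from ⟨hx, hy, hz, hw⟩)
  -- positivity of Δ
  have hΔ0 : 0 < Δ := by
    obtain ⟨ε, hε, hball⟩ := Metric.isOpen_iff.1 isOpen_interior 0 h0
    have hm : ∀ i : Fin 3, (Pi.single i (ε / 2) : V) ∈ K := by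
      intro i
      apply interior_subset
      apply hball
      rw [mem_ball_zero_iff, Pi.norm_single, Real.norm_eq_abs, abs_of_pos (by linarith)]
      linarith
    have := M3 _ (hm 0) _ (hm 1) _ (hm 2)
    have h3 : d3 (Pi.single 0 (ε / 2)) (Pi.single 1 (ε / 2)) (Pi.single 2 (ε / 2))
        = (ε / 2) ^ 3 := by
      simp [d3, Pi.single_apply]; ring
    rw [h3] at this
    have : 0 < (ε / 2) ^ 3 := by positivity
    linarith
  have hge : ∀ x ∈ K, Δ + |d3 x f g| + |d3 e x g| + |d3 e f x| ≤ D :=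
    fun x hx => d4_ge hK M4 he hf hg hx
  have hD0 : 0 < D := by
    have h := hge e he
    have h1 := abs_nonneg (d3 e f g)
    have h2 := abs_nonneg (d3 e e g)
    have h3 := abs_nonneg (d3 e f e)
    linarith
  have hDΔ : 2 * Δ ≤ D := by
    have h := hge e he
    have h1 := le_abs_self (d3 e f g)
    have h2 := abs_nonneg (d3 e e g)
    have h3 := abs_nonneg (d3 e f e)
    linarith
  set τ := D / Δ with hτ
  have hτ2 : 2 ≤ τ := by rw [hτ, le_div_iff₀ hΔ0]; exact hDΔ
  rcases le_total τ (13 / 4) with hcase | hcase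
  · -- octahedron
    obtain ⟨p, hp, hp2⟩ := octa hK he hf hg (s := τ - 1) (by linarith) (by
      intro x hx
      refine ⟨d3 x f g / Δ, d3 e x g / Δ, d3 e f x / Δ, ?_, ?_⟩
      · have h := cramer3 e f g x
        rw [← hΔ] at h
        calc x = Δ⁻¹ • (Δ • x) := by rw [smul_smul, inv_mul_cancel₀ hΔ0.ne', one_smul]
          _ = Δ⁻¹ • (d3 x f g • e + d3 e x g • f + d3 e f x • g) := by rw [h]
          _ = _ := by simp only [smul_add, smul_smul, div_eq_inv_mul]
      · rw [abs_div, abs_div, abs_div, abs_of_pos hΔ0, ← add_div, ← add_div,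
          div_le_iff₀ hΔ0, hτ, sub_mul, div_mul_cancel₀ _ hΔ0.ne']
        have := hge x hx
        linarith)
    exact ⟨6, p, hp, by linarith⟩
  · -- simplex
    have hneg := hK.2.2.2
    have k1 : 0 ≤ d3 b c d := by
      have h := M4 b hb (-a) (hneg a ha) c hc d hd
      have h2 : d4 b (-a) c d = d4 a b c d - 2 * d3 b c d := by
        simp only [d4, d3, Pi.neg_apply]; ring
      rw [h2] at h
      linarith
    have k2 : 0 ≤ -d3 a c d := by
      have h := M4 (-b) (hneg b hb) a ha c hc d hd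
      have h2 : d4 (-b) a c d = d4 a b c d - 2 * (-d3 a c d) := by
        simp only [d4, d3, Pi.neg_apply]; ring
      rw [h2] at h
      linarith
    have k3 : 0 ≤ d3 a b d := by
      have h := M4 a ha b hb d hd (-c) (hneg c hc)
      have h2 : d4 a b d (-c) = d4 a b c d - 2 * d3 a b d := by
        simp only [d4, d3, Pi.neg_apply]; ring
      rw [h2] at h
      linarith
    have k4 : 0 ≤ -d3 a b c := by
      have h := M4 a ha b hb (-d) (hneg d hd) c hc
      have h2 : d4 a b (-d) c = d4 a b c d - 2 * (-d3 a b c) := by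
        simp only [d4, d3, Pi.neg_apply]; ring
      rw [h2] at h
      linarith
    have u1 : d3 b c d ≤ Δ := M3 b hb c hc d hd
    have u2 : -d3 a c d ≤ Δ := by
      have h := M3 c hc a ha d hd
      have h2 : d3 c a d = -d3 a c d := by simp only [d3]; ring
      linarith
    have u3 : d3 a b d ≤ Δ := M3 a ha b hb d hd
    have u4 : -d3 a b c ≤ Δ := by
      have h := M3 b hb a ha c hc
      have h2 : d3 b a c = -d3 a b c := by simp only [d3]; ring
      linarith
    have hq : ∀ t : ℝ, t ≤ Δ → τ * (t / D) ≤ 1 := by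
      intro t ht
      have : τ * (t / D) = t / Δ := by
        rw [hτ]; field_simp
      rw [this, div_le_one hΔ0]; exact ht
    obtain ⟨p, hp, hp2⟩ := simplex hK ha hb hc hd (D := D) (τ := τ) hD0 rfl
      (fun x hx => ⟨M4 x hx b hb c hc d hd, M4 a ha x hx c hc d hd, M4 a ha b hb x hx d hd,
        M4 a ha b hb c hc x hx⟩)
      (l1 := d3 b c d / D) (l2 := -d3 a c d / D) (l3 := d3 a b d / D) (l4 := -d3 a b c / D)
      (mul_div_cancel₀ _ hD0.ne') (mul_div_cancel₀ _ hD0.ne') (mul_div_cancel₀ _ hD0.ne')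
      (mul_div_cancel₀ _ hD0.ne')
      (div_nonneg k1 hD0.le) (div_nonneg k2 hD0.le) (div_nonneg k3 hD0.le)
      (div_nonneg k4 hD0.le) (by linarith)
      (hq _ u1) (hq _ u2) (hq _ u3) (hq _ u4)
    exact ⟨4, p, hp, by linarith⟩

theorem costs_bddBelow (K : Set V) : BddBelow (costs K) := by
  refine ⟨0, ?_⟩
  rintro t ⟨N, p, -, rfl⟩
  exact Finset.sum_nonneg fun i _ => gauge_nonneg _

theorem vein_le (hK : IsSymBody K) : vein K ≤ 27 / 2 := by
  obtain ⟨N, p, hp, hp2⟩ := exists_cover hK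
  exact (csInf_le (costs_bddBelow K) ⟨N, p, hp, rfl⟩).trans hp2

end body

/-- **Upper bound for the vertex index in dimension three.**  Every centrally symmetric convex
body `K` in `ℝ³` lies in the convex hull of finitely many points with `∑ ‖p_i‖_K ≤ 27/2`; so
`vein K ≤ 27/2` for every such `K`, and `V_3 ≤ 27/2`. -/
theorem result :
    (∀ K : Set V, IsSymBody K →
      ∃ (N : ℕ) (p : Fin N → V), K ⊆ convexHull ℝ (Set.range p) ∧
        ∑ i, gauge K (p i) ≤ 27 / 2) ∧
    (∀ K : Set V, IsSymBody K → vein K ≤ 27 / 2) ∧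
    BddAbove {v | ∃ K : Set V, IsSymBody K ∧ v = vein K} ∧
    V3 ≤ 27 / 2 := by
  refine ⟨fun K hK => exists_cover hK, fun K hK => vein_le hK, ⟨27 / 2, ?_⟩, ?_⟩
  · rintro v ⟨K, hK, rfl⟩
    exact vein_le hK
  · apply Real.sSup_le _ (by norm_num)
    rintro v ⟨K, hK, rfl⟩
    exact vein_le hK

end Pool.Agent.Results.MP_8a50a7_gt.VertexIndexUpper
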